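import Mathlib

set_option autoImplicit false

open Set Topology TopologicalSpace

namespace Pool.Agent.HLC742

/-- every connected subset is locally connected -/
def HLC (X : Type*) [TopologicalSpace X] : Prop :=
  ∀ S : Set X, IsPreconnected S → LocallyConnectedSpace S

section basics

variable {X : Type*} [MetricSpace X] [LocallyConnectedSpace X]

/-- small connected neighbourhoods with closure inside a given open set -/
theorem exists_nbhd {x : X} {O : Set X} (hO : IsOpen O) (hx : x ∈ O) :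
    ∃ N : Set X, IsOpen N ∧ IsPreconnected N ∧ x ∈ N ∧ closure N ⊆ O := by
  obtain ⟨F, hF, hFc, hFO⟩ := exists_mem_nhds_isClosed_subset (hO.mem_nhds hx)
  have hxF : x ∈ interior F := mem_interior_iff_mem_nhds.mpr hF
  refine ⟨connectedComponentIn (interior F) x, isOpen_interior.connectedComponentIn,
    isPreconnected_connectedComponentIn, mem_connectedComponentIn hxF, ?_⟩
  calc closure (connectedComponentIn (interior F) x) ⊆ closure F :=
        closure_mono ((connectedComponentIn_subset _ _).trans interior_subset)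
    _ = F := hFc.closure_eq
    _ ⊆ O := hFO

omit [LocallyConnectedSpace X] in
/-- a connected set which is not contained in the component of a point -/
theorem bump {K F : Set X} (hK : IsPreconnected K) {a : X} (haK : a ∈ K) (haF : a ∉ F)
    (hF : IsClosed F) (hne : (K ∩ F).Nonempty) (hKo : IsOpen K) [LocallyConnectedSpace X] :
    ∃ x ∈ closure (connectedComponentIn (K \ F) a), x ∈ K ∧ x ∈ F := by
  have hop : IsOpen (K \ F) := hKo.sdiff hF
  have haKF : a ∈ K \ F := ⟨haK, haF⟩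
  by_contra hcon
  push Not at hcon
  have hsub : K ⊆ connectedComponentIn (K \ F) a := by
    apply hK.subset_of_closure_inter_subset hop.connectedComponentIn
      ⟨a, haK, mem_connectedComponentIn haKF⟩
    rintro x ⟨hx1, hx2⟩
    have hxF := hcon x hx1 hx2
    have hxKF : x ∈ K \ F := ⟨hx2, hxF⟩
    have hop2 : IsOpen (connectedComponentIn (K \ F) x) := hop.connectedComponentIn
    obtain ⟨z, hz1, hz2⟩ := mem_closure_iff.mp hx1 _ hop2 (mem_connectedComponentIn hxKF)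
    rw [connectedComponentIn_eq hz2, ← connectedComponentIn_eq hz1]
    exact mem_connectedComponentIn hxKF
  obtain ⟨z, hz1, hz2⟩ := hne
  exact (connectedComponentIn_subset _ _ (hsub hz1)).2 hz2

/-- shrinking a connected open set -/
theorem shrink {K P Q : Set X} (hKo : IsOpen K) (hK : IsPreconnected K)
    (hP : (K ∩ P).Nonempty) (hQ : (K ∩ Q).Nonempty) :
    ∃ K' : Set X, IsOpen K' ∧ IsPreconnected K' ∧ closure K' ⊆ K ∧ (K' ∩ P).Nonempty ∧
      (K' ∩ Q).Nonempty := by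
  obtain ⟨a, haK, haP⟩ := hP
  obtain ⟨b, hbK, hbQ⟩ := hQ
  let 𝒢 : Set (Set X) := {K' | IsOpen K' ∧ IsPreconnected K' ∧ closure K' ⊆ K ∧ a ∈ K'}
  have hop : IsOpen (⋃₀ 𝒢) := isOpen_sUnion (fun s hs => hs.1)
  have hsub : K ⊆ ⋃₀ 𝒢 := by
    apply hK.subset_of_closure_inter_subset hop
    · obtain ⟨N, hN1, hN2, hN3, hN4⟩ := exists_nbhd hKo haK
      exact ⟨a, haK, N, ⟨hN1, hN2, hN4, hN3⟩, hN3⟩
    · rintro x ⟨hx1, hx2⟩
      obtain ⟨N, hN1, hN2, hN3, hN4⟩ := exists_nbhd hKo hx2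
      obtain ⟨z, hz1, K', hK', hz2⟩ := mem_closure_iff.mp hx1 N hN1 hN3
      refine ⟨K' ∪ N, ⟨hK'.1.union hN1, hK'.2.1.union z hz2 hz1 hN2, ?_, Or.inl hK'.2.2.2⟩,
        Or.inr hN3⟩
      rw [closure_union]
      exact union_subset hK'.2.2.1 hN4
  obtain ⟨K', hK', hb⟩ := hsub hbK
  exact ⟨K', hK'.1, hK'.2.1, hK'.2.2.1, ⟨a, hK'.2.2.2, haP⟩, ⟨b, hb, hbQ⟩⟩

/-- trimming a connected open set near an open set `F` -/
theorem trim {K A F C T : Set X} (hKo : IsOpen K) (hK : IsPreconnected K)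
    (hA : (K ∩ A).Nonempty) (hF : (K ∩ F).Nonempty) (hCT : Disjoint (closure C) (closure T)) :
    ∃ K0 k : Set X, IsOpen K0 ∧ IsPreconnected K0 ∧ IsOpen k ∧ IsPreconnected k ∧
      IsPreconnected (K0 ∪ k) ∧ K0 ⊆ K ∧ k ⊆ K ∧ ((K0 ∪ k) ∩ A).Nonempty ∧
      (K0.Nonempty → (K0 ∩ A).Nonempty) ∧ Disjoint K0 F ∧ (k ∩ F).Nonempty ∧
      (Disjoint k C ∨ Disjoint k T) := by
  -- small neighbourhoods which do not meet both `C` and `T`
  have small : ∀ x ∈ K, ∃ k : Set X, IsOpen k ∧ IsPreconnected k ∧ x ∈ k ∧ k ⊆ K ∧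
      (Disjoint k C ∨ Disjoint k T) := by
    intro x hx
    by_cases hxC : x ∈ closure C
    · have hxT : x ∉ closure T := fun h => Set.disjoint_left.mp hCT hxC h
      obtain ⟨N, hN1, hN2, hN3, hN4⟩ := exists_nbhd (hKo.sdiff isClosed_closure)
        (show x ∈ K \ closure T from ⟨hx, hxT⟩)
      refine ⟨N, hN1, hN2, hN3, fun z hz => (hN4 (subset_closure hz)).1, Or.inr ?_⟩
      rw [Set.disjoint_left]
      intro z hz hzT
      exact (hN4 (subset_closure hz)).2 (subset_closure hzT)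
    · obtain ⟨N, hN1, hN2, hN3, hN4⟩ := exists_nbhd (hKo.sdiff isClosed_closure)
        (show x ∈ K \ closure C from ⟨hx, hxC⟩)
      refine ⟨N, hN1, hN2, hN3, fun z hz => (hN4 (subset_closure hz)).1, Or.inl ?_⟩
      rw [Set.disjoint_left]
      intro z hz hzT
      exact (hN4 (subset_closure hz)).2 (subset_closure hzT)
  obtain ⟨a, haK, haA⟩ := hA
  by_cases haF : a ∈ closure F
  · obtain ⟨k, hk1, hk2, hk3, hk4, hk5⟩ := small a haK
    refine ⟨∅, k, isOpen_empty, isPreconnected_empty, hk1, hk2, by simpa using hk2,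
      empty_subset _, hk4, ⟨a, Or.inr hk3, haA⟩, fun h => absurd h not_nonempty_empty,
      disjoint_bot_left, ?_, hk5⟩
    exact mem_closure_iff.mp haF k hk1 hk3
  · have hne : (K ∩ closure F).Nonempty := by
      obtain ⟨z, hz1, hz2⟩ := hF
      exact ⟨z, hz1, subset_closure hz2⟩
    obtain ⟨x, hx1, hx2, hx3⟩ := bump hK haK haF isClosed_closure hne hKo
    obtain ⟨k, hk1, hk2, hk3, hk4, hk5⟩ := small x hx2
    obtain ⟨z, hz1, hz2⟩ := mem_closure_iff.mp hx1 k hk1 hk3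
    have ha0 : a ∈ connectedComponentIn (K \ closure F) a :=
      mem_connectedComponentIn ⟨haK, haF⟩
    refine ⟨connectedComponentIn (K \ closure F) a, k,
      (hKo.sdiff isClosed_closure).connectedComponentIn, isPreconnected_connectedComponentIn,
      hk1, hk2, isPreconnected_connectedComponentIn.union z hz2 hz1 hk2,
      (connectedComponentIn_subset _ _).trans sdiff_subset, hk4, ⟨a, Or.inl ha0, haA⟩,
      fun _ => ⟨a, ha0, haA⟩, ?_, ?_, hk5⟩
    · rw [Set.disjoint_left]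
      intro w hw hwF
      exact (connectedComponentIn_subset _ _ hw).2 (subset_closure hwF)
    · exact mem_closure_iff.mp hx3 k hk1 hk3

end basics

section chains

variable {X : Type*} [MetricSpace X] [LocallyConnectedSpace X]

/-- two disjoint connected open subsets of `U` meeting both `A` and `E` -/
def Pr (U A E : Set X) : Prop :=
  ∃ K K' : Set X, IsOpen K ∧ IsPreconnected K ∧ IsOpen K' ∧ IsPreconnected K' ∧
    K ⊆ U ∧ K' ⊆ U ∧ Disjoint K K' ∧ (K ∩ A).Nonempty ∧ (K ∩ E).Nonempty ∧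
    (K' ∩ A).Nonempty ∧ (K' ∩ E).Nonempty

/-- the case where both trimmed sets touch `C` -/
theorem peel_aux {U A C E T K0 k K' : Set X} (hC : IsOpen C) (hCc : IsPreconnected C)
    (hCE : (C ∩ E).Nonempty) (hE : IsOpen E) (hCU : C ⊆ U)
    (hT : IsOpen T) (hTc : IsPreconnected T) (hTU : T ⊆ U)
    (hTA : (T ∩ A).Nonempty) (hCT : Disjoint C T)
    (h1 : IsOpen K0) (h2 : IsPreconnected K0) (h3 : IsOpen k)
    (h5 : IsPreconnected (K0 ∪ k)) (h5U : K0 ∪ k ⊆ U)
    (h6 : ((K0 ∪ k) ∩ A).Nonempty) (h7 : K0.Nonempty → (K0 ∩ A).Nonempty)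
    (h8 : Disjoint K0 (C ∪ E)) (h9 : (k ∩ C).Nonempty) (h10 : Disjoint k T)
    (g1 : IsOpen K') (g2 : IsPreconnected K') (g3 : K' ⊆ U) (g4 : (K' ∩ A).Nonempty)
    (g5 : (K' ∩ C).Nonempty) (hKK : Disjoint K0 K')
    {e : X} (heT : e ∈ T) (heE : e ∈ E) (heK : e ∉ closure (K0 ∪ k)) (heK' : e ∉ closure K')
    {x : X} (hx1 : x ∈ closure (connectedComponentIn (T \ closure ((K0 ∪ k) ∪ K')) e))
    (hx2 : x ∈ T) (hx3 : x ∈ closure (K0 ∪ k)) (hx4 : x ∉ closure K') : Pr U A E := by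
  obtain ⟨t, ht1, ht2, ht3, ht4⟩ := exists_nbhd (hT.sdiff isClosed_closure)
    (show x ∈ T \ closure K' from ⟨hx2, hx4⟩)
  set T0 := connectedComponentIn (T \ closure ((K0 ∪ k) ∪ K')) e with hT0
  have heL : e ∈ T \ closure ((K0 ∪ k) ∪ K') := by
    refine ⟨heT, ?_⟩
    rw [closure_union]
    rintro (h | h)
    · exact heK h
    · exact heK' h
  have heT0 : e ∈ T0 := mem_connectedComponentIn heL
  have hT0o : IsOpen T0 := (hT.sdiff isClosed_closure).connectedComponentIn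
  have hT0c : IsPreconnected T0 := isPreconnected_connectedComponentIn
  have hT0s : T0 ⊆ T \ closure ((K0 ∪ k) ∪ K') := connectedComponentIn_subset _ _
  have htT : t ⊆ T \ closure K' := fun z hz => ht4 (subset_closure hz)
  obtain ⟨z, hz1, hz2⟩ := mem_closure_iff.mp hx1 t ht1 ht3
  obtain ⟨w, hw1, hw2⟩ := mem_closure_iff.mp hx3 t ht1 ht3
  have hw0 : w ∈ K0 := by
    rcases hw2 with h | h
    · exact h
    · exact absurd (htT hw1).1 (fun hh => Set.disjoint_left.mp h10 h hh)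
  obtain ⟨c, hc1, hc2⟩ := g5
  refine ⟨K0 ∪ (t ∪ T0), K' ∪ C, h1.union (ht1.union hT0o),
    h2.union w hw0 (Or.inl hw1) (ht2.union z hz1 hz2 hT0c), g1.union hC,
    g2.union c hc1 hc2 hCc, ?_, union_subset g3 hCU, ?_, ?_, ?_, ?_, ?_⟩
  · refine union_subset (fun y hy => h5U (Or.inl hy)) (union_subset ?_ ?_)
    · exact fun y hy => hTU (htT hy).1
    · exact fun y hy => hTU (hT0s hy).1
  · rw [Set.disjoint_left]
    rintro y (hy | hy | hy) (hy' | hy')
    · exact Set.disjoint_left.mp hKK hy hy'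
    · exact Set.disjoint_left.mp h8 hy (Or.inl hy')
    · exact (htT hy).2 (subset_closure hy')
    · exact Set.disjoint_left.mp hCT hy' (htT hy).1
    · exact (hT0s hy).2 (subset_closure (Or.inr hy'))
    · exact Set.disjoint_left.mp hCT hy' (hT0s hy).1
  · obtain ⟨a, ha1, ha2⟩ := h7 ⟨w, hw0⟩
    exact ⟨a, Or.inl ha1, ha2⟩
  · exact ⟨e, Or.inr (Or.inr heT0), heE⟩
  · obtain ⟨a, ha1, ha2⟩ := g4
    exact ⟨a, Or.inl ha1, ha2⟩
  · obtain ⟨a, ha1, ha2⟩ := hCE
    exact ⟨a, Or.inr ha1, ha2⟩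

/-- peeling one link off -/
theorem peel {U A C E T : Set X} (hC : IsOpen C) (hCc : IsPreconnected C) (hCU : C ⊆ U)
    (hCE : (C ∩ E).Nonempty) (hE : IsOpen E)
    (hT : IsOpen T) (hTc : IsPreconnected T) (hTU : T ⊆ U)
    (hTA : (T ∩ A).Nonempty) (hTE : (T ∩ E).Nonempty)
    (hCT : Disjoint (closure C) (closure T)) (hpr : Pr U A (C ∪ E)) : Pr U A E := by
  obtain ⟨L, L', hL1, hL2, hL'1, hL'2, hLU, hL'U, hLL, hLA, hLE, hL'A, hL'E⟩ := hpr
  obtain ⟨M, hM1, hM2, hM3, hM4, hM5⟩ := shrink hL1 hL2 hLA hLE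
  obtain ⟨M', hM'1, hM'2, hM'3, hM'4, hM'5⟩ := shrink hL'1 hL'2 hL'A hL'E
  obtain ⟨K0, k, a1, a2, a3, a4, a5, a6, a7, a8, a9, a10, a11, a12⟩ := trim hM1 hM2 hM4 hM5 hCT
  obtain ⟨K0', k', b1, b2, b3, b4, b5, b6, b7, b8, b9, b10, b11, b12⟩ :=
    trim hM'1 hM'2 hM'4 hM'5 hCT
  have hCT' : Disjoint C T := hCT.mono subset_closure subset_closure
  have hKM : K0 ∪ k ⊆ M := union_subset a6 a7
  have hKM' : K0' ∪ k' ⊆ M' := union_subset b6 b7
  have hMM : Disjoint (closure M) (closure M') := hLL.mono hM3 hM'3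
  have hcl : Disjoint (closure (K0 ∪ k)) (closure (K0' ∪ k')) :=
    hMM.mono (closure_mono hKM) (closure_mono hKM')
  have hd : Disjoint (K0 ∪ k) (K0' ∪ k') := hcl.mono subset_closure subset_closure
  have hKU : K0 ∪ k ⊆ U := fun y hy => hLU (hM3 (subset_closure (hKM hy)))
  have hKU' : K0' ∪ k' ⊆ U := fun y hy => hL'U (hM'3 (subset_closure (hKM' hy)))
  obtain ⟨c, hc1, hc2⟩ := hCE
  -- if `k` misses `C` then `K0 ∪ k` misses `C` and meets `E`
  have miss : ∀ K0 k : Set X, Disjoint K0 (C ∪ E) → (k ∩ (C ∪ E)).Nonempty → Disjoint k C →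
      Disjoint (K0 ∪ k) C ∧ ((K0 ∪ k) ∩ E).Nonempty := by
    intro K0 k h1 h2 h3
    constructor
    · rw [Set.disjoint_left]
      rintro y (hy | hy) hyC
      · exact Set.disjoint_left.mp h1 hy (Or.inl hyC)
      · exact Set.disjoint_left.mp h3 hy hyC
    · obtain ⟨z, hz1, hz2 | hz2⟩ := h2
      · exact absurd hz2 (fun hh => Set.disjoint_left.mp h3 hz1 hh)
      · exact ⟨z, Or.inr hz1, hz2⟩
  by_cases hk : Disjoint k C
  · obtain ⟨m1, m2⟩ := miss K0 k a10 a11 hk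
    by_cases hk' : Disjoint k' C
    · obtain ⟨m1', m2'⟩ := miss K0' k' b10 b11 hk'
      exact ⟨K0 ∪ k, K0' ∪ k', a1.union a3, a5, b1.union b3, b5, hKU, hKU', hd, a8, m2, b8, m2'⟩
    · obtain ⟨d, hd1, hd2⟩ := Set.not_disjoint_iff.mp hk'
      refine ⟨K0 ∪ k, (K0' ∪ k') ∪ C, a1.union a3, a5, (b1.union b3).union hC,
        b5.union d (Or.inr hd1) hd2 hCc, hKU, union_subset hKU' hCU, ?_, a8, m2, ?_, ?_⟩
      · exact Set.disjoint_union_right.mpr ⟨hd, m1⟩
      · obtain ⟨y, hy1, hy2⟩ := b8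
        exact ⟨y, Or.inl hy1, hy2⟩
      · exact ⟨c, Or.inr hc1, hc2⟩
  · obtain ⟨d, hd1, hd2⟩ := Set.not_disjoint_iff.mp hk
    by_cases hk' : Disjoint k' C
    · obtain ⟨m1', m2'⟩ := miss K0' k' b10 b11 hk'
      refine ⟨(K0 ∪ k) ∪ C, K0' ∪ k', (a1.union a3).union hC,
        a5.union d (Or.inr hd1) hd2 hCc, b1.union b3, b5, union_subset hKU hCU, hKU', ?_, ?_, ?_,
        b8, m2'⟩
      · exact Set.disjoint_union_left.mpr ⟨hd, m1'.symm⟩
      · obtain ⟨y, hy1, hy2⟩ := a8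
        exact ⟨y, Or.inl hy1, hy2⟩
      · exact ⟨c, Or.inr hc1, hc2⟩
    · -- both touch `C`
      obtain ⟨d', hd'1, hd'2⟩ := Set.not_disjoint_iff.mp hk'
      have kT : Disjoint k T := by
        rcases a12 with h | h
        · exact absurd h hk
        · exact h
      have kT' : Disjoint k' T := by
        rcases b12 with h | h
        · exact absurd h hk'
        · exact h
      obtain ⟨e, heT, heE⟩ := hTE
      have key : ∀ K0 k : Set X, Disjoint K0 (C ∪ E) → Disjoint k T →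
          e ∉ closure (K0 ∪ k) := by
        intro K0 k h1 h2 he
        obtain ⟨w, ⟨hw1, hw2⟩, hw3 | hw3⟩ := mem_closure_iff.mp he (T ∩ E) (hT.inter hE)
          ⟨heT, heE⟩
        · exact Set.disjoint_left.mp h1 hw3 (Or.inr hw2)
        · exact Set.disjoint_left.mp h2 hw3 hw1
      have heK := key K0 k a10 kT
      have heK' := key K0' k' b10 kT'
      have heL : e ∉ closure ((K0 ∪ k) ∪ (K0' ∪ k')) := by
        rw [closure_union]
        rintro (h | h)
        · exact heK h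
        · exact heK' h
      by_cases hA : (connectedComponentIn (T \ closure ((K0 ∪ k) ∪ (K0' ∪ k'))) e ∩ A).Nonempty
      · -- the component reaches `A`
        have hs := connectedComponentIn_subset (T \ closure ((K0 ∪ k) ∪ (K0' ∪ k'))) e
        refine ⟨connectedComponentIn (T \ closure ((K0 ∪ k) ∪ (K0' ∪ k'))) e, (K0 ∪ k) ∪ C,
          (hT.sdiff isClosed_closure).connectedComponentIn, isPreconnected_connectedComponentIn,
          (a1.union a3).union hC, a5.union d (Or.inr hd1) hd2 hCc,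
          fun y hy => hTU (hs hy).1, union_subset hKU hCU, ?_, hA,
          ⟨e, mem_connectedComponentIn ⟨heT, heL⟩, heE⟩, ?_, ⟨c, Or.inr hc1, hc2⟩⟩
        · rw [Set.disjoint_left]
          rintro y hy (hy' | hy')
          · exact (hs hy).2 (subset_closure (Or.inl hy'))
          · exact Set.disjoint_left.mp hCT' hy' (hs hy).1
        · obtain ⟨y, hy1, hy2⟩ := a8
          exact ⟨y, Or.inl hy1, hy2⟩
      · have hne : (T ∩ closure ((K0 ∪ k) ∪ (K0' ∪ k'))).Nonempty := by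
          by_contra hcon
          rw [Set.not_nonempty_iff_eq_empty] at hcon
          apply hA
          obtain ⟨y, hy1, hy2⟩ := hTA
          refine ⟨y, ?_, hy2⟩
          have hTs : T ⊆ T \ closure ((K0 ∪ k) ∪ (K0' ∪ k')) := by
            intro z hz
            refine ⟨hz, fun h => ?_⟩
            have : z ∈ (∅ : Set X) := hcon ▸ (⟨hz, h⟩ : z ∈ T ∩ _)
            exact this
          exact hTc.subset_connectedComponentIn heT hTs hy1
        obtain ⟨x, hx1, hx2, hx3⟩ := bump hTc heT heL isClosed_closure hne hT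
        have hx3' := hx3
        rw [closure_union] at hx3'
        rcases hx3' with hx | hx
        · have hx' : x ∉ closure (K0' ∪ k') := fun h => Set.disjoint_left.mp hcl hx h
          exact peel_aux hC hCc ⟨c, hc1, hc2⟩ hE hCU hT hTc hTU hTA hCT' a1 a2 a3 a5 hKU a8 a9 a10
            ⟨d, hd1, hd2⟩ kT (b1.union b3) b5 hKU' b8 ⟨d', Or.inr hd'1, hd'2⟩
            (hd.mono subset_union_left le_rfl) heT heE heK heK' hx1 hx2 hx hx'
        · have hx' : x ∉ closure (K0 ∪ k) := fun h => Set.disjoint_left.mp hcl h hx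
          rw [union_comm (K0 ∪ k) (K0' ∪ k')] at hx1
          exact peel_aux hC hCc ⟨c, hc1, hc2⟩ hE hCU hT hTc hTU hTA hCT' b1 b2 b3 b5 hKU' b8 b9 b10
            ⟨d', hd'1, hd'2⟩ kT' (a1.union a3) a5 hKU a8 ⟨d, Or.inr hd1, hd2⟩
            (hd.symm.mono subset_union_left le_rfl) heT heE heK' heK hx1 hx2 hx hx'

end chains

section L1

variable {X : Type*} [MetricSpace X]

/-- The basic consequence of hereditary local connectedness: disjoint connected open sets meeting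
a connected set `A` do not accumulate outside of the closure of `A`. -/
theorem L1 (hX : HLC X) {A : Set X} (hA : IsPreconnected A) {ι : Type*} (K : ι → Set X)
    (hKo : ∀ i, IsOpen (K i)) (hK : ∀ i, IsPreconnected (K i))
    (hd : ∀ i j, i ≠ j → Disjoint (K i) (K j)) (hKA : ∀ i, (K i ∩ A).Nonempty) {y : X}
    (hyA : y ∉ closure A) (hyK : ∀ i, y ∉ closure (K i)) : y ∉ closure (⋃ i, K i) := by
  intro hy
  have hne : (⋃ i, K i).Nonempty := closure_nonempty_iff.mp ⟨y, hy⟩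
  obtain ⟨w, hw⟩ := hne
  obtain ⟨i0, hi0⟩ := mem_iUnion.mp hw
  obtain ⟨a, haK, haA⟩ := hKA i0
  have hT : IsPreconnected (⋃ i, (A ∪ K i)) := by
    refine isPreconnected_iUnion ⟨a, mem_iInter.mpr fun i => Or.inl haA⟩ fun i => ?_
    obtain ⟨b, hbK, hbA⟩ := hKA i
    exact hA.union b hbA hbK (hK i)
  have hTS : IsPreconnected (insert y (⋃ i, (A ∪ K i))) := by
    refine hT.subset_closure (subset_insert _ _) ?_
    refine insert_subset ?_ subset_closure
    exact closure_mono (iUnion_mono fun i => subset_union_right) hy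
  set S := insert y (⋃ i, (A ∪ K i)) with hS
  have := hX S hTS
  have hyS : y ∈ S := mem_insert _ _
  -- an open connected neighbourhood of `y` in `S` avoiding `A`
  have hopen : IsOpen (Subtype.val ⁻¹' (closure A)ᶜ : Set S) :=
    (isClosed_closure.isOpen_compl).preimage continuous_subtype_val
  let N : Set S := connectedComponentIn (Subtype.val ⁻¹' (closure A)ᶜ : Set S) ⟨y, hyS⟩
  have hNo : IsOpen N := hopen.connectedComponentIn
  have hyN : (⟨y, hyS⟩ : S) ∈ N := mem_connectedComponentIn hyA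
  have hNc : IsPreconnected (Subtype.val '' N : Set X) :=
    isPreconnected_connectedComponentIn.image _ continuous_subtype_val.continuousOn
  obtain ⟨G, hG, hGN⟩ := isOpen_induced_iff.mp hNo
  have hyG : y ∈ G := by
    have : (⟨y, hyS⟩ : S) ∈ Subtype.val ⁻¹' G := by rw [hGN]; exact hyN
    exact this
  obtain ⟨z, hzG, hzK⟩ := mem_closure_iff.mp hy G hG hyG
  obtain ⟨i, hi⟩ := mem_iUnion.mp hzK
  have hzS : z ∈ S := Or.inr (mem_iUnion.mpr ⟨i, Or.inr hi⟩)
  have hzN : (⟨z, hzS⟩ : S) ∈ N := by rw [← hGN]; exact hzG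
  -- the partition of `N`
  have hsub : (Subtype.val '' N : Set X) ⊆ K i ∪ (closure (K i))ᶜ := by
    rintro _ ⟨⟨p, hpS⟩, hpN, rfl⟩
    rcases hpS with hp | hp
    · right
      have : p = y := hp
      subst this
      exact hyK i
    · obtain ⟨j, hj⟩ := mem_iUnion.mp hp
      rcases hj with hj | hj
      · exact absurd (subset_closure hj) (connectedComponentIn_subset _ _ hpN)
      · by_cases hij : i = j
        · left; rw [hij]; exact hj
        · right
          intro hcl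
          obtain ⟨q, hq1, hq2⟩ := mem_closure_iff.mp hcl (K j) (hKo j) hj
          exact Set.disjoint_left.mp (hd i j hij) hq2 hq1
  obtain ⟨q, -, hq1, hq2⟩ := hNc (K i) ((closure (K i))ᶜ) (hKo i) isClosed_closure.isOpen_compl
    hsub ⟨z, ⟨⟨z, hzS⟩, hzN, rfl⟩, hi⟩ ⟨y, ⟨⟨y, hyS⟩, hyN, rfl⟩, hyK i⟩
  exact hq2 (subset_closure hq1)

end L1

section thmB

variable {X : Type*} [MetricSpace X] [LocallyConnectedSpace X]

/-- no point separates a connected open set -/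
def NC (X : Type*) [TopologicalSpace X] : Prop :=
  ∀ (G : Set X) (x : X), IsOpen G → IsPreconnected G → x ∈ G → IsPreconnected (G \ {x})

/-- nonempty open sets are infinite -/
def NI (X : Type*) [TopologicalSpace X] : Prop :=
  ∀ (G : Set X) (x : X), IsOpen G → x ∈ G → ∃ y ∈ G, y ≠ x

/-- two disjoint connected open sets -/
theorem two (hnc : NC X) (hni : NI X) {U A Y : Set X} (hU : IsOpen U) (hUc : IsPreconnected U)
    (hA : IsOpen A) (hUA : (U ∩ A).Nonempty) (hY : IsOpen Y) (hYc : IsPreconnected Y)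
    (hYU : Y ⊆ U) (hYn : Y.Nonempty) : Pr U A Y := by
  by_contra hcon
  let 𝒢 : Set (Set X) := {E | IsOpen E ∧ IsPreconnected E ∧ E ⊆ U ∧ Y ⊆ E ∧ ¬ Pr U A E}
  have hop : IsOpen (⋃₀ 𝒢) := isOpen_sUnion (fun s hs => hs.1)
  have hYG : Y ∈ 𝒢 := ⟨hY, hYc, hYU, le_rfl, hcon⟩
  obtain ⟨y0, hy0⟩ := hYn
  have hsub : U ⊆ ⋃₀ 𝒢 := by
    apply hUc.subset_of_closure_inter_subset hop
    · exact ⟨y0, hYU hy0, Y, hYG, hy0⟩
    · rintro x ⟨hx1, hx2⟩
      -- a connected open set `T` from `A` to `Y` whose closure misses `x`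
      have hUx : IsPreconnected (U \ {x}) := hnc U x hU hUc hx2
      have hUxo : IsOpen (U \ {x}) := hU.sdiff isClosed_singleton
      have h1 : ((U \ {x}) ∩ A).Nonempty := by
        obtain ⟨a, ha1, ha2⟩ := hUA
        by_cases hax : a = x
        · obtain ⟨b, hb1, hb2⟩ := hni (U ∩ A) x (hU.inter hA) (hax ▸ ⟨ha1, ha2⟩)
          exact ⟨b, ⟨hb1.1, hb2⟩, hb1.2⟩
        · exact ⟨a, ⟨ha1, hax⟩, ha2⟩
      have h2 : ((U \ {x}) ∩ Y).Nonempty := by
        by_cases hax : y0 = x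
        · obtain ⟨b, hb1, hb2⟩ := hni Y x hY (hax ▸ hy0)
          exact ⟨b, ⟨hYU hb1, hb2⟩, hb1⟩
        · exact ⟨y0, ⟨hYU hy0, hax⟩, hy0⟩
      obtain ⟨T, hT1, hT2, hT3, hT4, hT5⟩ := shrink hUxo hUx h1 h2
      have hxT : x ∉ closure T := fun h => (hT3 h).2 rfl
      obtain ⟨C, hC1, hC2, hC3, hC4⟩ := exists_nbhd (hU.sdiff isClosed_closure)
        (show x ∈ U \ closure T from ⟨hx2, hxT⟩)
      obtain ⟨z, hz1, E, hE, hz2⟩ := mem_closure_iff.mp hx1 C hC1 hC3
      obtain ⟨hE1, hE2, hE3, hE4, hE5⟩ := hE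
      have hCU : C ⊆ U := fun w hw => (hC4 (subset_closure hw)).1
      refine ⟨C ∪ E, ⟨hC1.union hE1, hC2.union z hz1 hz2 hE2, union_subset hCU hE3,
        hE4.trans subset_union_right, ?_⟩, Or.inl hC3⟩
      intro hpr
      apply hE5
      refine peel hC1 hC2 hCU ⟨z, hz1, hz2⟩ hE1 hT1 hT2 ?_ hT4 ?_ ?_ hpr
      · exact fun w hw => (hT3 (subset_closure hw)).1
      · obtain ⟨v, hv1, hv2⟩ := hT5
        exact ⟨v, hv1, hE4 hv2⟩
      · rw [Set.disjoint_left]
        intro w hw1 hw2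
        exact (hC4 hw1).2 hw2
  obtain ⟨a, haU, haA⟩ := hUA
  obtain ⟨E, ⟨hE1, hE2, hE3, hE4, hE5⟩, haE⟩ := hsub haU
  apply hE5
  obtain ⟨b, hb1, hb2⟩ := hni (E ∩ A) a (hE1.inter hA) ⟨haE, haA⟩
  obtain ⟨O1, O2, hO1, hO2, haO, hbO, hOO⟩ := t2_separation hb2.symm
  obtain ⟨K, hK1, hK2, hK3, hK4⟩ := exists_nbhd ((hE1.inter hA).inter hO1) ⟨⟨haE, haA⟩, haO⟩
  obtain ⟨K', hK'1, hK'2, hK'3, hK'4⟩ := exists_nbhd ((hE1.inter hA).inter hO2) ⟨hb1, hbO⟩
  refine ⟨K, K', hK1, hK2, hK'1, hK'2, fun w hw => hE3 (hK4 (subset_closure hw)).1.1,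
    fun w hw => hE3 (hK'4 (subset_closure hw)).1.1, ?_, ⟨a, hK3, haA⟩, ⟨a, hK3, haE⟩,
    ⟨b, hK'3, hb1.2⟩, ⟨b, hK'3, hb1.1⟩⟩
  rw [Set.disjoint_left]
  intro w hw1 hw2
  exact Set.disjoint_left.mp hOO (hK4 (subset_closure hw1)).2 (hK'4 (subset_closure hw2)).2

/-- one step of the construction in Theorem B -/
theorem stepB (hnc : NC X) (hni : NI X) {U A : Set X} (hU : IsOpen U) (hUc : IsPreconnected U)
    (hA : IsOpen A) (hUA : (U ∩ A).Nonempty) {y : X} (hyU : y ∈ U) (hyA : y ∉ closure A)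
    {ρ : ℝ} (hρ : 0 < ρ) :
    ∃ K V : Set X, IsOpen K ∧ IsPreconnected K ∧ K ⊆ U ∧ (K ∩ A).Nonempty ∧
      (K ∩ Metric.ball y ρ).Nonempty ∧ IsOpen V ∧ IsPreconnected V ∧ V ⊆ U ∧ y ∈ V ∧
      (V ∩ A).Nonempty ∧ Disjoint K V := by
  have hO : IsOpen ((U ∩ Metric.ball y ρ) \ closure A) :=
    (hU.inter Metric.isOpen_ball).sdiff isClosed_closure
  obtain ⟨Y, hY1, hY2, hY3, hY4⟩ := exists_nbhd hO
    (show y ∈ _ from ⟨⟨hyU, Metric.mem_ball_self hρ⟩, hyA⟩)
  have hYU : Y ⊆ U := fun w hw => (hY4 (subset_closure hw)).1.1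
  obtain ⟨K, K', h1, h2, h3, h4, h5, h6, h7, h8, h9, h10, h11⟩ :=
    two hnc hni hU hUc hA hUA hY1 hY2 hYU ⟨y, hY3⟩
  obtain ⟨a, haK, haA⟩ := h8
  have haY : a ∉ closure Y := fun h => (hY4 h).2 (subset_closure haA)
  have hne : (K ∩ closure Y).Nonempty := by
    obtain ⟨w, hw1, hw2⟩ := h9
    exact ⟨w, hw1, subset_closure hw2⟩
  obtain ⟨x, hx1, hx2, hx3⟩ := bump h2 haK haY isClosed_closure hne h1
  have hs := connectedComponentIn_subset (K \ closure Y) a
  refine ⟨connectedComponentIn (K \ closure Y) a, K' ∪ Y,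
    (h1.sdiff isClosed_closure).connectedComponentIn, isPreconnected_connectedComponentIn,
    fun w hw => h5 (hs hw).1, ⟨a, mem_connectedComponentIn ⟨haK, haY⟩, haA⟩, ?_,
    h3.union hY1, ?_, union_subset h6 hYU, Or.inr hY3, ?_, ?_⟩
  · obtain ⟨w, hw1, hw2⟩ := mem_closure_iff.mp hx1 (Metric.ball y ρ) Metric.isOpen_ball
      (hY4 hx3).1.2
    exact ⟨w, hw2, hw1⟩
  · obtain ⟨w, hw1, hw2⟩ := h11
    exact h4.union w hw1 hw2 hY2
  · obtain ⟨w, hw1, hw2⟩ := h10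
    exact ⟨w, Or.inl hw1, hw2⟩
  · rw [Set.disjoint_left]
    rintro w hw (hw' | hw')
    · exact Set.disjoint_left.mp h7 (hs hw).1 hw'
    · exact (hs hw).2 (subset_closure hw')

/-- **Theorem B.** -/
theorem thmB [PreconnectedSpace X] [Nontrivial X] (hX : HLC X) (hnc : NC X) : False := by
  have hni : NI X := by
    intro G x hG hx
    by_contra hcon
    push Not at hcon
    have hGx : G = {x} := by
      ext z
      constructor
      · exact fun hz => hcon z hz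
      · intro hz
        rw [mem_singleton_iff] at hz
        exact hz ▸ hx
    rw [hGx] at hG
    have hcl : IsClopen ({x} : Set X) := ⟨isClosed_singleton, hG⟩
    rcases isClopen_iff.mp hcl with h | h
    · exact (singleton_ne_empty x) h
    · obtain ⟨z, hz⟩ := exists_ne x
      exact hz (h ▸ (mem_univ z) : z ∈ ({x} : Set X))
  obtain ⟨y, a, hya⟩ := exists_pair_ne X
  obtain ⟨A, hA1, hA2, hA3, hA4⟩ := exists_nbhd (isClosed_singleton (x := y)).isOpen_compl
    (show a ∈ ({y} : Set X)ᶜ from fun h => hya (mem_singleton_iff.mp h).symm)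
  have hyA : y ∉ closure A := fun h => hA4 h rfl
  -- the states
  let St := {U : Set X // IsOpen U ∧ IsPreconnected U ∧ (U ∩ A).Nonempty ∧ y ∈ U}
  have hstep : ∀ (n : ℕ) (U : St), ∃ (K : Set X) (V : St), IsOpen K ∧ IsPreconnected K ∧
      K ⊆ U.1 ∧ (K ∩ A).Nonempty ∧ (K ∩ Metric.ball y (1 / ((n : ℝ) + 1))).Nonempty ∧
      V.1 ⊆ U.1 ∧ Disjoint K V.1 := by
    rintro n ⟨U, hU1, hU2, hU3, hU4⟩
    have hρ : (0 : ℝ) < 1 / ((n : ℝ) + 1) := by positivity
    obtain ⟨K, V, c1, c2, c3, c4, c5, c6, c7, c8, c9, c10, c11⟩ :=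
      stepB hnc hni hU1 hU2 hA1 hU3 hU4 hyA hρ
    exact ⟨K, ⟨V, c6, c7, c10, c9⟩, c1, c2, c3, c4, c5, c8, c11⟩
  choose fK fV hf using hstep
  let U : ℕ → St := fun n => Nat.rec ⟨univ, isOpen_univ, isPreconnected_univ,
    ⟨a, mem_univ _, hA3⟩, mem_univ _⟩ (fun n U => fV n U) n
  have hUs : ∀ n, U (n + 1) = fV n (U n) := fun n => rfl
  have hmono : ∀ n m, n ≤ m → (U m).1 ⊆ (U n).1 := by
    intro n m hnm
    induction m, hnm using Nat.le_induction with
    | base => exact le_rfl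
    | succ m hm ih =>
      rw [hUs]
      exact ((hf m (U m)).2.2.2.2.2.1).trans ih
  let K : ℕ → Set X := fun n => fK n (U n)
  have hKd' : ∀ n m, n < m → Disjoint (K n) (K m) := by
    intro n m hnm
    have h1 : Disjoint (K n) (U (n + 1)).1 := (hf n (U n)).2.2.2.2.2.2
    have h2 : K m ⊆ (U m).1 := (hf m (U m)).2.2.1
    exact h1.mono_right (h2.trans (hmono (n + 1) m hnm))
  have hKd : ∀ n m, n ≠ m → Disjoint (K n) (K m) := by
    intro n m hnm
    rcases lt_or_gt_of_ne hnm with h | h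
    · exact hKd' n m h
    · exact (hKd' m n h).symm
  have hyK : ∀ n, y ∉ closure (K n) := by
    intro n hcl
    have h1 : Disjoint (K n) (U (n + 1)).1 := (hf n (U n)).2.2.2.2.2.2
    obtain ⟨w, hw1, hw2⟩ := mem_closure_iff.mp hcl (U (n + 1)).1 (U (n + 1)).2.1
      (U (n + 1)).2.2.2.2
    exact Set.disjoint_left.mp h1 hw2 hw1
  refine L1 hX hA2 K (fun n => (hf n (U n)).1) (fun n => (hf n (U n)).2.1) hKd
    (fun n => (hf n (U n)).2.2.2.1) hyA hyK ?_
  rw [Metric.mem_closure_iff]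
  intro ε hε
  obtain ⟨n, hn⟩ := exists_nat_one_div_lt hε
  obtain ⟨w, hw1, hw2⟩ := (hf n (U n)).2.2.2.2.1
  refine ⟨w, mem_iUnion.mpr ⟨n, hw1⟩, ?_⟩
  rw [dist_comm]
  exact lt_trans (Metric.mem_ball.mp hw2) hn

end thmB

section thmA

variable {X : Type*} [MetricSpace X] [LocallyConnectedSpace X]

/-- `H` is open in `X` and its trace on `Y` is clopen -/
def Clp (Y H : Set X) : Prop := IsOpen H ∧ closure H ∩ Y ⊆ H

omit [LocallyConnectedSpace X] in
theorem Clp.compl {Y H : Set X} (h : Clp Y H) : Clp Y (closure H)ᶜ := by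
  refine ⟨isClosed_closure.isOpen_compl, ?_⟩
  rintro z ⟨hz1, hz2⟩ hz3
  have hzH : z ∈ H := h.2 ⟨hz3, hz2⟩
  obtain ⟨w, hw1, hw2⟩ := mem_closure_iff.mp hz1 H h.1 hzH
  exact hw2 (subset_closure hw1)

omit [LocallyConnectedSpace X] in
theorem Clp.subset_of_preconnected {Y H M : Set X} (h : Clp Y H) (hM : IsPreconnected M)
    (hMY : M ⊆ Y) {x : X} (hx : x ∈ M) (hxH : x ∈ H) : M ⊆ H := by
  intro z hz
  by_contra hzH
  have hz' : z ∉ closure H := fun hc => hzH (h.2 ⟨hc, hMY hz⟩)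
  obtain ⟨w, -, hw1, hw2⟩ := hM H (closure H)ᶜ h.1 isClosed_closure.isOpen_compl
    (fun w hw => by
      by_cases hwH : w ∈ H
      · exact Or.inl hwH
      · exact Or.inr (fun hc => hwH (h.2 ⟨hc, hMY hw⟩)))
    ⟨x, hx, hxH⟩ ⟨z, hz, hz'⟩
  exact hw2 (subset_closure hw1)

/-- the quasi-component of `x` in `Y` -/
def Qc (Y : Set X) (x : X) : Set X := {z | z ∈ Y ∧ ∀ H, Clp Y H → x ∈ H → z ∈ H}

omit [LocallyConnectedSpace X] in
/-- Countably many disjoint traces. From open sets `h n` with clopen traces on `Y` one obtains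
pairwise disjoint ones with the same union on `Y`. -/
theorem disj_clp {Y : Set X} (h : ℕ → Set X) (hh : ∀ n, Clp Y (h n)) :
    ∃ h' : ℕ → Set X, (∀ n, Clp Y (h' n)) ∧ (∀ n, h' n ⊆ h n) ∧
      (∀ n m, n ≠ m → Disjoint (h' n) (h' m)) ∧ ∀ z ∈ Y, (∃ n, z ∈ h n) → ∃ n, z ∈ h' n := by
  refine ⟨fun n => h n \ ⋃ i ∈ Finset.range n, closure (h i), ?_, ?_, ?_, ?_⟩
  · intro n
    refine ⟨(hh n).1.sdiff (isClosed_biUnion_finset fun i _ => isClosed_closure), ?_⟩
    rintro z ⟨hz1, hz2⟩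
    refine ⟨(hh n).2 ⟨closure_mono sdiff_subset hz1, hz2⟩, ?_⟩
    intro hz3
    simp only [mem_iUnion] at hz3
    obtain ⟨i, hi, hzi⟩ := hz3
    have hzi' : z ∈ h i := (hh i).2 ⟨hzi, hz2⟩
    obtain ⟨w, hw1, hw2⟩ := mem_closure_iff.mp hz1 (h i) (hh i).1 hzi'
    exact hw2.2 (mem_biUnion (show i ∈ (Finset.range n : Set ℕ) from hi) (subset_closure hw1))
  · exact fun n => sdiff_subset
  · have key : ∀ n m, n < m → Disjoint (h n \ ⋃ i ∈ Finset.range n, closure (h i))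
        (h m \ ⋃ i ∈ Finset.range m, closure (h i)) := by
      intro n m hnm
      rw [Set.disjoint_left]
      rintro z hz1 hz2
      exact hz2.2 (mem_biUnion (show n ∈ (Finset.range m : Set ℕ) from by simpa using hnm)
        (subset_closure hz1.1))
    intro n m hnm
    rcases lt_or_gt_of_ne hnm with h | h
    · exact key n m h
    · exact (key m n h).symm
  · classical
    rintro z hzY hz
    refine ⟨Nat.find hz, Nat.find_spec hz, ?_⟩
    intro hz3
    simp only [mem_iUnion] at hz3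
    obtain ⟨i, hi, hzi⟩ := hz3
    have hzi' : z ∈ h i := (hh i).2 ⟨hzi, hzY⟩
    exact Nat.find_min hz (Finset.mem_range.mp hi) hzi'

omit [LocallyConnectedSpace X] in
/-- countable subcover by a sequence -/
theorem seq_cover [SecondCountableTopology X] (𝒮 : Set (Set X)) (ho : ∀ s ∈ 𝒮, IsOpen s)
    (he : ∅ ∈ 𝒮) : ∃ h : ℕ → Set X, (∀ n, h n ∈ 𝒮) ∧ ∀ z, (∃ s ∈ 𝒮, z ∈ s) → ∃ n, z ∈ h n := by
  obtain ⟨T, hT1, hT2, hT3⟩ := isOpen_sUnion_countable 𝒮 ho
  have hne : (insert ∅ T : Set (Set X)).Nonempty := ⟨∅, mem_insert _ _⟩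
  obtain ⟨h, hh⟩ := (hT1.insert ∅).exists_eq_range hne
  have hmem : ∀ n, h n ∈ (insert ∅ T : Set (Set X)) := fun n => hh ▸ mem_range_self n
  refine ⟨h, fun n => ?_, ?_⟩
  · rcases hmem n with h0 | h0
    · rw [h0]; exact he
    · exact hT2 h0
  · rintro z ⟨s, hs, hz⟩
    have : z ∈ ⋃₀ T := by rw [hT3]; exact ⟨s, hs, hz⟩
    obtain ⟨t, ht, hzt⟩ := this
    have : t ∈ range h := hh ▸ mem_insert_of_mem _ ht
    obtain ⟨n, rfl⟩ := this
    exact ⟨n, hzt⟩

/-- **Theorem A.** Quasi-components of arbitrary subsets are connected. -/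
theorem thmA [SecondCountableTopology X] (hX : HLC X) (Y : Set X) (x : X) (hxY : x ∈ Y) :
    IsPreconnected (Qc Y x) := by
  set M := Qc Y x with hM
  intro U V hU hV hMUV hMU hMV
  by_contra hcon
  rw [not_nonempty_iff_eq_empty] at hcon
  set P := M ∩ U with hP
  set Q := M ∩ V with hQ
  have hPQ : ∀ z ∈ P, z ∉ closure Q := by
    rintro z ⟨hz1, hz2⟩ hc
    obtain ⟨w, hw1, hw2, hw3⟩ := mem_closure_iff.mp hc U hU hz2
    have : w ∈ M ∩ (U ∩ V) := ⟨hw2, hw1, hw3⟩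
    rw [hcon] at this
    exact this
  have hQP : ∀ z ∈ Q, z ∉ closure P := by
    rintro z ⟨hz1, hz2⟩ hc
    obtain ⟨w, hw1, hw2, hw3⟩ := mem_closure_iff.mp hc V hV hz2
    have : w ∈ M ∩ (U ∩ V) := ⟨hw2, hw3, hw1⟩
    rw [hcon] at this
    exact this
  have hMY : M ⊆ Y := fun z hz => hz.1
  -- the clopen sets missing `M`
  obtain ⟨h, hh1, hh2⟩ := seq_cover {H : Set X | Clp Y H ∧ Disjoint H M} (fun s hs => hs.1.1)
    ⟨⟨isOpen_empty, by simp⟩, empty_disjoint _⟩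
  obtain ⟨h', h'1, h'2, h'3, h'4⟩ := disj_clp h (fun n => (hh1 n).1)
  have hcov : ∀ z ∈ Y, z ∉ M → ∃ n, z ∈ h' n := by
    intro z hzY hzM
    apply h'4 z hzY
    apply hh2
    have : ¬ ∀ H, Clp Y H → x ∈ H → z ∈ H := fun hc => hzM ⟨hzY, hc⟩
    push Not at this
    obtain ⟨H, hH1, hH2, hH3⟩ := this
    refine ⟨(closure H)ᶜ, ⟨hH1.compl, ?_⟩, fun hc => hH3 (hH1.2 ⟨hc, hzY⟩)⟩
    rw [Set.disjoint_left]
    intro w hw1 hw2
    exact hw1 (subset_closure (hw2.2 H hH1 hH2))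
  have hdM : ∀ n, Disjoint (h' n) M := fun n => (hh1 n).2.mono_left (h'2 n)
  -- the family of components
  let 𝒥 : Set (Set X) := {J | ∃ n, ∃ z ∈ h' n, J = connectedComponentIn (h' n) z}
  have J1 : ∀ J ∈ 𝒥, IsOpen J := by
    rintro J ⟨n, z, hz, rfl⟩
    exact (h'1 n).1.connectedComponentIn
  have J2 : ∀ J ∈ 𝒥, IsPreconnected J := by
    rintro J ⟨n, z, hz, rfl⟩
    exact isPreconnected_connectedComponentIn
  have J3 : ∀ J ∈ 𝒥, Disjoint J M := by
    rintro J ⟨n, z, hz, rfl⟩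
    exact (hdM n).mono_left (connectedComponentIn_subset _ _)
  have J4 : ∀ J ∈ 𝒥, ∀ J' ∈ 𝒥, ∀ w, w ∈ J → w ∈ J' → J = J' := by
    rintro J ⟨n, z, hz, rfl⟩ J' ⟨m, z', hz', rfl⟩ w hw hw'
    have hnm : n = m := by
      by_contra hnm
      exact Set.disjoint_left.mp (h'3 n m hnm) (connectedComponentIn_subset _ _ hw)
        (connectedComponentIn_subset _ _ hw')
    subst hnm
    rw [connectedComponentIn_eq hw, connectedComponentIn_eq hw']
  have J5 : ∀ J ∈ 𝒥, Clp Y J := by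
    rintro J ⟨n, z, hz, rfl⟩
    refine ⟨(h'1 n).1.connectedComponentIn, ?_⟩
    rintro w ⟨hw1, hw2⟩
    have hwn : w ∈ h' n := (h'1 n).2 ⟨closure_mono (connectedComponentIn_subset _ _) hw1, hw2⟩
    obtain ⟨v, hv1, hv2⟩ := mem_closure_iff.mp hw1 (connectedComponentIn (h' n) w)
      (h'1 n).1.connectedComponentIn (mem_connectedComponentIn hwn)
    rw [connectedComponentIn_eq hv2, ← connectedComponentIn_eq hv1]
    exact mem_connectedComponentIn hwn
  have J6 : ∀ z ∈ Y, z ∉ M → ∃ J ∈ 𝒥, z ∈ J := by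
    intro z hz1 hz2
    obtain ⟨n, hn⟩ := hcov z hz1 hz2
    exact ⟨_, ⟨n, z, hn, rfl⟩, mem_connectedComponentIn hn⟩
  -- local finiteness
  have key : ∀ (A : Set X) (q : X), IsPreconnected A → q ∈ M → q ∉ closure A →
      q ∉ closure (⋃₀ {J | J ∈ 𝒥 ∧ (J ∩ A).Nonempty}) := by
    intro A q hA hqM hqA
    have h0 := L1 hX hA (fun J : {J // J ∈ 𝒥 ∧ (J ∩ A).Nonempty} => (J : Set X))
      (fun J => J1 J J.2.1) (fun J => J2 J J.2.1) (fun J J' hne => by
        rw [Set.disjoint_left]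
        intro w hw1 hw2
        exact hne (Subtype.ext (J4 J J.2.1 J' J'.2.1 w hw1 hw2)))
      (fun J => J.2.2) hqA (fun J hc => by
        have : q ∈ (J : Set X) := (J5 J J.2.1).2 ⟨hc, hMY hqM⟩
        exact Set.disjoint_left.mp (J3 J J.2.1) this hqM)
    rw [sUnion_eq_iUnion]
    exact h0
  -- covers of `P` and `Q`
  obtain ⟨RP, RP1, RP2⟩ := seq_cover {R : Set X | IsOpen R ∧ IsPreconnected R ∧
    Disjoint (closure R) Q} (fun s hs => hs.1) ⟨isOpen_empty, isPreconnected_empty, by simp⟩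
  obtain ⟨RQ, RQ1, RQ2⟩ := seq_cover {R : Set X | IsOpen R ∧ IsPreconnected R ∧
    Disjoint (closure R) P} (fun s hs => hs.1) ⟨isOpen_empty, isPreconnected_empty, by simp⟩
  have RP3 : ∀ z ∈ P, ∃ n, z ∈ RP n := by
    intro z hz
    apply RP2
    obtain ⟨N, hN1, hN2, hN3, hN4⟩ := exists_nbhd isClosed_closure.isOpen_compl
      (show z ∈ (closure Q)ᶜ from hPQ z hz)
    refine ⟨N, ⟨hN1, hN2, ?_⟩, hN3⟩
    rw [Set.disjoint_left]
    exact fun w hw1 hw2 => hN4 hw1 (subset_closure hw2)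
  have RQ3 : ∀ z ∈ Q, ∃ n, z ∈ RQ n := by
    intro z hz
    apply RQ2
    obtain ⟨N, hN1, hN2, hN3, hN4⟩ := exists_nbhd isClosed_closure.isOpen_compl
      (show z ∈ (closure P)ᶜ from hQP z hz)
    refine ⟨N, ⟨hN1, hN2, ?_⟩, hN3⟩
    rw [Set.disjoint_left]
    exact fun w hw1 hw2 => hN4 hw1 (subset_closure hw2)
  -- the assignment
  let asg : Set X → Prop := fun J => ∃ j, (J ∩ RP j).Nonempty ∧ ∀ i < j, ¬ (J ∩ RQ i).Nonempty
  let SP : Set X := P ∪ ⋃₀ {J | J ∈ 𝒥 ∧ asg J}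
  let SQ : Set X := Q ∪ ⋃₀ {J | J ∈ 𝒥 ∧ ¬ asg J}
  have hSPQ : Disjoint (closure SP) SQ := by
    rw [Set.disjoint_right]
    rintro z (hz | ⟨J, ⟨hJ, hJa⟩, hzJ⟩) hc
    · obtain ⟨j0, hj0⟩ := RQ3 z hz
      have hzF : ∀ j, z ∉ closure (⋃₀ {J | J ∈ 𝒥 ∧ (J ∩ RP j).Nonempty}) := by
        intro j
        apply key (RP j) z (RP1 j).2.1 hz.1
        exact fun hc => Set.disjoint_left.mp (RP1 j).2.2 hc hz
      have hO : IsOpen (RQ j0 \ ⋃ j ∈ Finset.range (j0 + 1),
          closure (⋃₀ {J | J ∈ 𝒥 ∧ (J ∩ RP j).Nonempty})) :=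
        (RQ1 j0).1.sdiff (isClosed_biUnion_finset fun i _ => isClosed_closure)
      obtain ⟨w, hw1, hw2⟩ := mem_closure_iff.mp hc _ hO ⟨hj0, by
        simp only [mem_iUnion, not_exists]
        exact fun j _ => hzF j⟩
      rcases hw2 with hw2 | ⟨J, ⟨hJ, j, hj1, hj2⟩, hwJ⟩
      · exact Set.disjoint_left.mp (RQ1 j0).2.2 (subset_closure hw1.1) hw2
      · have hjj : j ≤ j0 := by
          by_contra hlt
          exact hj2 j0 (not_le.mp hlt) ⟨w, hwJ, hw1.1⟩
        exact hw1.2 (mem_biUnion (show j ∈ (Finset.range (j0 + 1) : Set ℕ) from by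
          simpa using Nat.lt_succ_of_le hjj) (subset_closure ⟨J, ⟨hJ, hj1⟩, hwJ⟩))
    · obtain ⟨w, hw1, hw2⟩ := mem_closure_iff.mp hc J (J1 J hJ) hzJ
      rcases hw2 with hw2 | ⟨J', ⟨hJ', hJ'a⟩, hwJ'⟩
      · exact Set.disjoint_left.mp (J3 J hJ) hw1 hw2.1
      · exact hJa (J4 J hJ J' hJ' w hw1 hwJ' ▸ hJ'a)
  have hSQP : Disjoint SP (closure SQ) := by
    rw [Set.disjoint_left]
    rintro z (hz | ⟨J, ⟨hJ, hJa⟩, hzJ⟩) hc
    · obtain ⟨j0, hj0⟩ := RP3 z hz
      have hzF : ∀ j, z ∉ closure (⋃₀ {J | J ∈ 𝒥 ∧ (J ∩ RQ j).Nonempty}) := by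
        intro j
        apply key (RQ j) z (RQ1 j).2.1 hz.1
        exact fun hc => Set.disjoint_left.mp (RQ1 j).2.2 hc hz
      have hO : IsOpen (RP j0 \ ⋃ j ∈ Finset.range (j0 + 1),
          closure (⋃₀ {J | J ∈ 𝒥 ∧ (J ∩ RQ j).Nonempty})) :=
        (RP1 j0).1.sdiff (isClosed_biUnion_finset fun i _ => isClosed_closure)
      obtain ⟨w, hw1, hw2⟩ := mem_closure_iff.mp hc _ hO ⟨hj0, by
        simp only [mem_iUnion, not_exists]
        exact fun j _ => hzF j⟩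
      rcases hw2 with hw2 | ⟨J, ⟨hJ, hJa⟩, hwJ⟩
      · exact Set.disjoint_left.mp (RP1 j0).2.2 (subset_closure hw1.1) hw2
      · have : ∃ i < j0, (J ∩ RQ i).Nonempty := by
          by_contra hno
          push Not at hno
          exact hJa ⟨j0, ⟨w, hwJ, hw1.1⟩, fun i hi => by
            rw [hno i hi]; exact not_nonempty_empty⟩
        obtain ⟨i, hi, hne⟩ := this
        exact hw1.2 (mem_biUnion (show i ∈ (Finset.range (j0 + 1) : Set ℕ) from by
          simpa using Nat.lt_succ_of_lt hi) (subset_closure ⟨J, ⟨hJ, hne⟩, hwJ⟩))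
    · obtain ⟨w, hw1, hw2⟩ := mem_closure_iff.mp hc J (J1 J hJ) hzJ
      rcases hw2 with hw2 | ⟨J', ⟨hJ', hJ'a⟩, hwJ'⟩
      · exact Set.disjoint_left.mp (J3 J hJ) hw1 hw2.1
      · exact hJ'a (J4 J hJ J' hJ' w hw1 hwJ' ▸ hJa)
  -- separated sets have disjoint neighbourhoods
  have hsep : SeparatedNhds SP SQ :=
    separatedNhds_iff_disjoint.mpr (CompletelyNormalSpace.completely_normal hSPQ hSQP)
  obtain ⟨G1, G2, hG1, hG2, hS1, hS2, hG⟩ := hsep
  have hYS : Y ⊆ SP ∪ SQ := by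
    intro z hz
    by_cases hzM : z ∈ M
    · rcases hMUV hzM with hzU | hzV
      · exact Or.inl (Or.inl ⟨hzM, hzU⟩)
      · exact Or.inr (Or.inl ⟨hzM, hzV⟩)
    · obtain ⟨J, hJ, hzJ⟩ := J6 z hz hzM
      by_cases hJa : asg J
      · exact Or.inl (Or.inr ⟨J, ⟨hJ, hJa⟩, hzJ⟩)
      · exact Or.inr (Or.inr ⟨J, ⟨hJ, hJa⟩, hzJ⟩)
  have hsw : ∀ G1 G2 SP SQ : Set X, IsOpen G1 → IsOpen G2 → SP ⊆ G1 → SQ ⊆ G2 →
      Disjoint G1 G2 → Y ⊆ SP ∪ SQ → Clp Y G1 := by
    intro G1 G2 SP SQ hG1 hG2 hS1 hS2 hG hYS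
    refine ⟨hG1, ?_⟩
    rintro z ⟨hz1, hz2⟩
    rcases hYS hz2 with hz | hz
    · exact hS1 hz
    · obtain ⟨w, hw1, hw2⟩ := mem_closure_iff.mp hz1 G2 hG2 (hS2 hz)
      exact absurd hw1 (Set.disjoint_left.mp hG hw2)
  have hc1 : Clp Y G1 := hsw G1 G2 SP SQ hG1 hG2 hS1 hS2 hG hYS
  have hc2 : Clp Y G2 := hsw G2 G1 SQ SP hG2 hG1 hS2 hS1 hG.symm (by rwa [union_comm])
  obtain ⟨p, hpM, hpU⟩ := hMU
  obtain ⟨q, hqM, hqV⟩ := hMV
  have hpG : p ∈ G1 := hS1 (Or.inl ⟨hpM, hpU⟩)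
  have hqG : q ∈ G2 := hS2 (Or.inl ⟨hqM, hqV⟩)
  rcases hYS hxY with hx | hx
  · have := hqM.2 G1 hc1 (hS1 hx)
    exact Set.disjoint_left.mp hG this hqG
  · have := hpM.2 G2 hc2 (hS2 hx)
    exact Set.disjoint_left.mp hG hpG this

end thmA

section transfer

variable {X : Type*} [MetricSpace X]

/-- hereditary local connectedness passes to subspaces -/
theorem HLC.sub (hX : HLC X) (S : Set X) : HLC S := by
  intro Z hZ
  have h1 : IsPreconnected (Subtype.val '' Z : Set X) :=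
    hZ.image _ continuous_subtype_val.continuousOn
  have h2 := hX _ h1
  let e : Z ≃ₜ (Subtype.val '' Z : Set X) := Topology.IsEmbedding.subtypeVal.homeomorphImage Z
  exact e.isOpenEmbedding.locallyConnectedSpace

/-- in a nondegenerate connected metric space nonempty open sets are infinite -/
theorem NI_of_connected {T : Type*} [MetricSpace T] [PreconnectedSpace T] [Nontrivial T] :
    NI T := by
  intro G x hG hx
  by_contra hcon
  push Not at hcon
  have hGx : G = {x} := by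
    ext z
    constructor
    · exact fun hz => hcon z hz
    · intro hz
      rw [mem_singleton_iff] at hz
      exact hz ▸ hx
  rw [hGx] at hG
  have hcl : IsClopen ({x} : Set T) := ⟨isClosed_singleton, hG⟩
  rcases isClopen_iff.mp hcl with h | h
  · exact (singleton_ne_empty x) h
  · obtain ⟨z, hz⟩ := exists_ne x
    exact hz (h ▸ (mem_univ z) : z ∈ ({x} : Set T))

/-- a local criterion for `G \ {x}` to be connected -/
theorem local_nc {T : Type*} [MetricSpace T] (hni : NI T) {G : Set T} (hG : IsPreconnected G)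
    (x : T)
    (hloc : ∀ p ∈ G, ∃ C : Set T, IsOpen C ∧ p ∈ C ∧ C ⊆ G ∧ IsPreconnected (C \ {x})) :
    IsPreconnected (G \ {x}) := by
  intro u v hu hv hsub hnu hnv
  by_contra hcon
  rw [not_nonempty_iff_eq_empty] at hcon
  let 𝒰 : Set (Set T) := {C | IsOpen C ∧ C ⊆ G ∧ C \ {x} ⊆ u}
  let 𝒱 : Set (Set T) := {C | IsOpen C ∧ C ⊆ G ∧ C \ {x} ⊆ v}
  have hU : IsOpen (⋃₀ 𝒰) := isOpen_sUnion fun s hs => hs.1
  have hV : IsOpen (⋃₀ 𝒱) := isOpen_sUnion fun s hs => hs.1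
  have hdich : ∀ C : Set T, C ⊆ G → IsPreconnected (C \ {x}) →
      C \ {x} ⊆ u ∨ C \ {x} ⊆ v := by
    intro C hCG hC
    refine isPreconnected_iff_subset_of_disjoint.mp hC u v hu hv ?_ ?_
    · exact fun z hz => hsub ⟨hCG hz.1, hz.2⟩
    · rw [← subset_empty_iff, ← hcon]
      exact fun z hz => ⟨⟨hCG hz.1.1, hz.1.2⟩, hz.2⟩
  have hcov : G ⊆ ⋃₀ 𝒰 ∪ ⋃₀ 𝒱 := by
    intro p hp
    obtain ⟨C, hC1, hC2, hC3, hC4⟩ := hloc p hp
    rcases hdich C hC3 hC4 with h | h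
    · exact Or.inl ⟨C, ⟨hC1, hC3, h⟩, hC2⟩
    · exact Or.inr ⟨C, ⟨hC1, hC3, h⟩, hC2⟩
  have hGU : (G ∩ ⋃₀ 𝒰).Nonempty := by
    obtain ⟨a, ha1, ha2⟩ := hnu
    obtain ⟨C, hC1, hC2, hC3, hC4⟩ := hloc a ha1.1
    refine ⟨a, ha1.1, C, ⟨hC1, hC3, ?_⟩, hC2⟩
    rcases hdich C hC3 hC4 with h | h
    · exact h
    · have : a ∈ (G \ {x}) ∩ (u ∩ v) := ⟨ha1, ha2, h ⟨hC2, ha1.2⟩⟩
      rw [hcon] at this
      exact absurd this (notMem_empty a)
  have hGV : (G ∩ ⋃₀ 𝒱).Nonempty := by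
    obtain ⟨a, ha1, ha2⟩ := hnv
    obtain ⟨C, hC1, hC2, hC3, hC4⟩ := hloc a ha1.1
    refine ⟨a, ha1.1, C, ⟨hC1, hC3, ?_⟩, hC2⟩
    rcases hdich C hC3 hC4 with h | h
    · have : a ∈ (G \ {x}) ∩ (u ∩ v) := ⟨ha1, h ⟨hC2, ha1.2⟩, ha2⟩
      rw [hcon] at this
      exact absurd this (notMem_empty a)
    · exact h
  obtain ⟨z, hz, ⟨C, ⟨hC1, hC2, hC3⟩, hzC⟩, ⟨C', ⟨hC'1, hC'2, hC'3⟩, hzC'⟩⟩ :=
    hG _ _ hU hV hcov hGU hGV
  have hw : ∃ w ∈ C ∩ C', w ≠ x := by
    by_cases hzx : z = x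
    · obtain ⟨w, hw1, hw2⟩ := hni (C ∩ C') z (hC1.inter hC'1) ⟨hzC, hzC'⟩
      exact ⟨w, hw1, hzx ▸ hw2⟩
    · exact ⟨z, ⟨hzC, hzC'⟩, hzx⟩
  obtain ⟨w, ⟨hw1, hw2⟩, hw3⟩ := hw
  have : w ∈ (G \ {x}) ∩ (u ∩ v) := ⟨⟨hC2 hw1, hw3⟩, hC3 ⟨hw1, hw3⟩, hC'3 ⟨hw2, hw3⟩⟩
  rw [hcon] at this
  exact notMem_empty w this

end transfer

section stab

variable {X : Type*} [MetricSpace X] [SecondCountableTopology X]

/-- separation of two points in `Y` -/
def Sg (Y : Set X) : Set (X × X) := {p | ∃ H, Clp Y H ∧ p.1 ∈ H ∧ p.2 ∉ closure H}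

/-- stabilisation: a countable set `D` after which no further separation of two points is
gained by deleting countably many points -/
theorem stab : ∃ D : Set X, D.Countable ∧ ∀ V ∈ countableBasis X, ∀ D' : Set X, D'.Countable →
    Sg (V \ D') ⊆ Sg (V \ D) := by
  have h1 : ∀ V : Set X, ∃ D : Set X, D.Countable ∧ ∀ D' : Set X, D'.Countable →
      Sg (V \ D') ⊆ Sg (V \ D) := by
    intro V
    let 𝒮 : Set (Set (X × X)) := {O | ∃ H D' : Set X, D'.Countable ∧ Clp (V \ D') H ∧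
      O = H ×ˢ (closure H)ᶜ}
    obtain ⟨T, hT1, hT2, hT3⟩ := isOpen_sUnion_countable 𝒮 (by
      rintro O ⟨H, D', -, hH, rfl⟩
      exact hH.1.prod isClosed_closure.isOpen_compl)
    have hch : ∀ O : T, ∃ D' : Set X, D'.Countable ∧ ∃ H, Clp (V \ D') H ∧
        (O : Set (X × X)) = H ×ˢ (closure H)ᶜ := by
      rintro ⟨O, hO⟩
      obtain ⟨H, D', h1, h2, h3⟩ := hT2 hO
      exact ⟨D', h1, H, h2, h3⟩
    choose f hf1 hf2 using hch
    have := hT1.to_subtype
    refine ⟨⋃ O, f O, countable_iUnion hf1, ?_⟩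
    rintro D' hD' ⟨a, b⟩ ⟨H, hH, ha, hb⟩
    have hmem : (a, b) ∈ ⋃₀ 𝒮 := ⟨H ×ˢ (closure H)ᶜ, ⟨H, D', hD', hH, rfl⟩, ha, hb⟩
    rw [← hT3] at hmem
    obtain ⟨O, hO, hab⟩ := hmem
    obtain ⟨H', hH', hOH⟩ := hf2 ⟨O, hO⟩
    have hab' : (a, b) ∈ H' ×ˢ (closure H')ᶜ := by rw [← hOH]; exact hab
    refine ⟨H', ⟨hH'.1, ?_⟩, hab'.1, hab'.2⟩
    rintro z ⟨hz1, hz2, hz3⟩
    exact hH'.2 ⟨hz1, hz2, fun hc => hz3 (mem_iUnion.mpr ⟨_, hc⟩)⟩
  choose f hf1 hf2 using h1
  refine ⟨⋃ V ∈ countableBasis X, f V, (countable_countableBasis X).biUnion fun V _ => hf1 V, ?_⟩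
  rintro V hV D' hD' p hp
  obtain ⟨H, hH, h1, h2⟩ := hf2 V D' hD' hp
  refine ⟨H, ⟨hH.1, ?_⟩, h1, h2⟩
  rintro z ⟨hz1, hz2, hz3⟩
  exact hH.2 ⟨hz1, hz2, fun hc => hz3 (mem_biUnion hV hc)⟩

/-- **Theorem C.** Off a countable set the space is hereditarily disconnected. -/
theorem thmC [LocallyConnectedSpace X] (hX : HLC X) : ∃ D : Set X, D.Countable ∧
    ∀ S : Set X, IsPreconnected S → S ⊆ Dᶜ → S.Subsingleton := by
  obtain ⟨D, hD, hst⟩ := stab (X := X)
  refine ⟨D, hD, ?_⟩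
  intro S0 hS0 hS0D
  by_contra hns
  rw [not_subsingleton_iff] at hns
  obtain ⟨s, hs, s', hs', hss⟩ := hns
  set S := connectedComponentIn Dᶜ s with hS
  have hsS : s ∈ S := mem_connectedComponentIn (hS0D hs)
  have hS0S : S0 ⊆ S := hS0.subset_connectedComponentIn hs hS0D
  have hSc : IsPreconnected S := isPreconnected_connectedComponentIn
  have hSD : S ⊆ Dᶜ := connectedComponentIn_subset _ _
  have hSmax : ∀ M : Set X, IsPreconnected M → M ⊆ Dᶜ → (M ∩ S).Nonempty → M ⊆ S := by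
    rintro M hM hMD ⟨a, haM, haS⟩
    rw [hS, connectedComponentIn_eq haS]
    exact hM.subset_connectedComponentIn haM hMD
  have : LocallyConnectedSpace S := hX S hSc
  have : PreconnectedSpace S := Subtype.preconnectedSpace hSc
  have : Nontrivial S := ⟨⟨s, hsS⟩, ⟨s', hS0S hs'⟩, fun h => hss (congrArg Subtype.val h)⟩
  have hni : NI S := NI_of_connected
  refine thmB (X := S) (hX.sub S) ?_
  intro G x hG hGc hxG
  apply local_nc hni hGc x
  intro p hp
  -- a basic open set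
  obtain ⟨O, hO, hOG⟩ := isOpen_induced_iff.mp hG
  have hpO : (p : X) ∈ O := by
    have : p ∈ Subtype.val ⁻¹' O := by rw [hOG]; exact hp
    exact this
  obtain ⟨V, hV, hpV, hVO⟩ := (isBasis_countableBasis X).exists_subset_of_mem_open hpO hO
  have hVop : IsOpen V := (isBasis_countableBasis X).isOpen hV
  have hVS : IsOpen (Subtype.val ⁻¹' V : Set S) := hVop.preimage continuous_subtype_val
  set C := connectedComponentIn (Subtype.val ⁻¹' V : Set S) p with hC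
  have hpC : p ∈ C := mem_connectedComponentIn hpV
  have hCs : C ⊆ Subtype.val ⁻¹' V := connectedComponentIn_subset _ _
  refine ⟨C, hVS.connectedComponentIn, hpC, ?_, ?_⟩
  · intro z hz
    rw [← hOG]
    exact hVO (hCs hz)
  · -- `C \ {x}` is connected
    rcases (C \ {x}).eq_empty_or_nonempty with he | ⟨a, haC, hax⟩
    · rw [he]; exact isPreconnected_empty
    · have hD' : (D ∪ {(x : X)}).Countable := hD.union (countable_singleton _)
      set Y : Set X := V \ (D ∪ {(x : X)}) with hY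
      have memY : ∀ b : S, b ∈ C \ {x} → (b : X) ∈ Y := by
        rintro b ⟨hb1, hb2⟩
        refine ⟨hCs hb1, ?_⟩
        rintro (h | h)
        · exact hSD b.2 h
        · exact hb2 (Subtype.ext h)
      have haY : (a : X) ∈ Y := memY a ⟨haC, hax⟩
      have hM := thmA hX Y a haY
      have hMS : Qc Y a ⊆ S := by
        apply hSmax _ hM
        · exact fun z hz hc => hz.1.2 (Or.inl hc)
        · exact ⟨a, ⟨haY, fun H _ h => h⟩, a.2⟩
      have hM' : IsPreconnected (Subtype.val ⁻¹' (Qc Y a) : Set S) := by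
        rw [← Topology.IsInducing.subtypeVal.isPreconnected_image, Subtype.image_preimage_coe,
          inter_eq_right.mpr hMS]
        exact hM
      have heq : (Subtype.val ⁻¹' (Qc Y a) : Set S) = C \ {x} := by
        apply Subset.antisymm
        · intro b hb
          constructor
          · have h1 : (Subtype.val ⁻¹' (Qc Y a) : Set S) ⊆ C := by
              rw [hC, connectedComponentIn_eq haC]
              exact hM'.subset_connectedComponentIn ⟨haY, fun H _ h => h⟩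
                (fun z hz => hz.1.1)
            exact h1 hb
          · intro hbx
            rw [mem_singleton_iff] at hbx
            exact hb.1.2 (Or.inr (by rw [hbx]; rfl))
        · intro b hb
          refine ⟨memY b hb, ?_⟩
          intro H hH haH
          by_contra hbH
          have hbH' : (b : X) ∉ closure H := fun hc => hbH (hH.2 ⟨hc, memY b hb⟩)
          obtain ⟨H', hH', h1, h2⟩ := hst V hV _ hD' (show ((a : X), (b : X)) ∈ Sg Y from
            ⟨H, hH, haH, hbH'⟩)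
          -- `C` is connected in `V \ D`
          have hCc : IsPreconnected (Subtype.val '' C : Set X) :=
            isPreconnected_connectedComponentIn.image _ continuous_subtype_val.continuousOn
          have hCV : (Subtype.val '' C : Set X) ⊆ V \ D := by
            rintro _ ⟨z, hz, rfl⟩
            exact ⟨hCs hz, hSD z.2⟩
          have := hH'.subset_of_preconnected hCc hCV ⟨a, haC, rfl⟩ h1
          exact h2 (subset_closure (this ⟨b, hb.1, rfl⟩))
      rw [← heq]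
      exact hM'

end stab

section final

variable {X : Type*} [MetricSpace X] [SecondCountableTopology X] [LocallyConnectedSpace X]

/-- Off the countable set of Theorem C, points are separated from closed connected sets. -/
theorem thmD (hX : HLC X) {D : Set X}
    (hD : ∀ S : Set X, IsPreconnected S → S ⊆ Dᶜ → S.Subsingleton)
    {A : Set X} (hAc : IsClosed A) (hA : IsPreconnected A) {y : X} (hyA : y ∉ A) (hyD : y ∉ D) :
    ∃ H : Set X, Clp Dᶜ H ∧ y ∈ H ∧ Disjoint H A := by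
  rcases A.eq_empty_or_nonempty with rfl | ⟨a, ha⟩
  · exact ⟨univ, ⟨isOpen_univ, fun z _ => mem_univ z⟩, mem_univ y, disjoint_empty _⟩
  set Y : Set X := A ∪ Dᶜ with hY
  have haY : a ∈ Y := Or.inl ha
  have hyY : y ∈ Y := Or.inr hyD
  have hM := thmA hX Y a haY
  have haM : a ∈ Qc Y a := ⟨haY, fun H _ h => h⟩
  by_cases hyM : y ∈ Qc Y a
  · -- a nondegenerate connected subset off `D`
    exfalso
    set M := Qc Y a with hMdef
    have : LocallyConnectedSpace M := hX M hM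
    have : PreconnectedSpace M := Subtype.preconnectedSpace hM
    have : Nontrivial M := ⟨⟨a, haM⟩, ⟨y, hyM⟩, fun h => hyA (by
      have h' : a = y := congrArg Subtype.val h
      exact h' ▸ ha)⟩
    have hni : NI M := NI_of_connected
    have hop : IsOpen (Subtype.val ⁻¹' Aᶜ : Set M) := hAc.isOpen_compl.preimage
      continuous_subtype_val
    set N := connectedComponentIn (Subtype.val ⁻¹' Aᶜ : Set M) ⟨y, hyM⟩ with hN
    have hyN : (⟨y, hyM⟩ : M) ∈ N := mem_connectedComponentIn hyA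
    obtain ⟨z, hz1, hz2⟩ := hni N ⟨y, hyM⟩ hop.connectedComponentIn hyN
    have hNc : IsPreconnected (Subtype.val '' N : Set X) :=
      isPreconnected_connectedComponentIn.image _ continuous_subtype_val.continuousOn
    have hND : (Subtype.val '' N : Set X) ⊆ Dᶜ := by
      rintro _ ⟨w, hw, rfl⟩
      have hwA : (w : X) ∉ A := connectedComponentIn_subset _ _ hw
      rcases w.2.1 with h | h
      · exact absurd h hwA
      · exact h
    have := hD _ hNc hND ⟨z, hz1, rfl⟩ ⟨_, hyN, rfl⟩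
    exact hz2 (Subtype.ext this)
  · have : ¬ ∀ H, Clp Y H → a ∈ H → y ∈ H := fun hc => hyM ⟨hyY, hc⟩
    push Not at this
    obtain ⟨H, hH1, hH2, hH3⟩ := this
    have hAH : A ⊆ H := hH1.subset_of_preconnected hA subset_union_left ha hH2
    refine ⟨(closure H)ᶜ, ⟨hH1.compl.1, ?_⟩, fun hc => hH3 (hH1.2 ⟨hc, hyY⟩), ?_⟩
    · exact fun z hz => hH1.compl.2 ⟨hz.1, Or.inr hz.2⟩
    · rw [Set.disjoint_left]
      exact fun w hw1 hw2 => hw1 (subset_closure (hAH hw2))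

/-- **(R_2) off a countable set.** -/
theorem R2 (hX : HLC X) : ∃ C : Set X, C.Countable ∧
    ∃ B : Set (Set ↥(Cᶜ : Set X)), (∀ U ∈ B, IsClosed U) ∧
      (∀ p : ↥(Cᶜ : Set X), ∀ V ∈ nhds p, ∃ U ∈ B, U ⊆ V ∧ p ∈ interior U) ∧
      (∀ U ∈ B, ∀ W ∈ B, Disjoint U W →
        ∃ F : Set ↥(Cᶜ : Set X), IsClopen F ∧ U ⊆ F ∧ Disjoint F W) := by
  obtain ⟨D, hDc, hD⟩ := thmC hX
  refine ⟨D, hDc, {B | ∃ U : Set X, IsOpen U ∧ IsPreconnected U ∧
    B = Subtype.val ⁻¹' (closure U)}, ?_, ?_, ?_⟩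
  · rintro _ ⟨U, -, -, rfl⟩
    exact isClosed_closure.preimage continuous_subtype_val
  · intro p V hV
    obtain ⟨O, hOV, hO, hpO⟩ := mem_nhds_iff.mp hV
    obtain ⟨O', hO', rfl⟩ := isOpen_induced_iff.mp hO
    obtain ⟨N, hN1, hN2, hN3, hN4⟩ := exists_nbhd hO' (show (p : X) ∈ O' from hpO)
    refine ⟨_, ⟨N, hN1, hN2, rfl⟩, fun z hz => hOV (hN4 hz), ?_⟩
    rw [mem_interior]
    exact ⟨Subtype.val ⁻¹' N, fun z hz => subset_closure hz,
      hN1.preimage continuous_subtype_val, hN3⟩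
  · rintro _ ⟨U, hU1, hU2, rfl⟩ _ ⟨W, hW1, hW2, rfl⟩ hd
    -- clopen traces missing `closure U` or `closure W`
    obtain ⟨h, hh1, hh2⟩ := seq_cover {H : Set X | Clp Dᶜ H ∧
      (Disjoint H (closure U) ∨ Disjoint H (closure W))} (fun s hs => hs.1.1)
      ⟨⟨isOpen_empty, by simp⟩, Or.inl (empty_disjoint _)⟩
    obtain ⟨h', h'1, h'2, h'3, h'4⟩ := disj_clp h (fun n => (hh1 n).1)
    have hcov : ∀ z ∈ Dᶜ, ∃ n, z ∈ h' n := by
      intro z hz
      apply h'4 z hz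
      apply hh2
      by_cases hzU : z ∈ closure U
      · have hzW : z ∉ closure W := fun hc => Set.disjoint_left.mp hd
          (show (⟨z, hz⟩ : ↥(Dᶜ : Set X)) ∈ Subtype.val ⁻¹' (closure U) from hzU) hc
        obtain ⟨H, hH1, hH2, hH3⟩ := thmD hX hD isClosed_closure hW2.closure hzW hz
        exact ⟨H, ⟨hH1, Or.inr hH3⟩, hH2⟩
      · obtain ⟨H, hH1, hH2, hH3⟩ := thmD hX hD isClosed_closure hU2.closure hzU hz
        exact ⟨H, ⟨hH1, Or.inl hH3⟩, hH2⟩
    let F1 : Set X := ⋃₀ {J | ∃ n, J = h' n ∧ ∃ z ∈ Dᶜ, z ∈ h' n ∧ z ∈ closure U}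
    let F2 : Set X := ⋃₀ {J | ∃ n, J = h' n ∧ ¬ ∃ z ∈ Dᶜ, z ∈ h' n ∧ z ∈ closure U}
    have hF1 : IsOpen F1 := isOpen_sUnion (by rintro _ ⟨n, rfl, -⟩; exact (h'1 n).1)
    have hF2 : IsOpen F2 := isOpen_sUnion (by rintro _ ⟨n, rfl, -⟩; exact (h'1 n).1)
    have hcompl : (Subtype.val ⁻¹' F1 : Set ↥(Dᶜ : Set X))ᶜ = Subtype.val ⁻¹' F2 := by
      ext z
      constructor
      · intro hz
        obtain ⟨n, hn⟩ := hcov z z.2
        refine ⟨h' n, ⟨n, rfl, fun hc => hz ⟨h' n, ⟨n, rfl, hc⟩, hn⟩⟩, hn⟩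
      · rintro ⟨_, ⟨n, rfl, hn⟩, hzn⟩ ⟨_, ⟨m, rfl, hm⟩, hzm⟩
        have hnm : n = m := by
          by_contra hnm
          exact Set.disjoint_left.mp (h'3 n m hnm) hzn hzm
        subst hnm
        exact hn hm
    refine ⟨Subtype.val ⁻¹' F1, ⟨?_, hF1.preimage continuous_subtype_val⟩, ?_, ?_⟩
    · rw [← isOpen_compl_iff, hcompl]
      exact hF2.preimage continuous_subtype_val
    · intro z hz
      obtain ⟨n, hn⟩ := hcov z z.2
      exact ⟨h' n, ⟨n, rfl, z, z.2, hn, hz⟩, hn⟩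
    · rw [Set.disjoint_left]
      rintro z ⟨_, ⟨n, rfl, w, hwD, hwn, hwU⟩, hzn⟩ hzW
      rcases (hh1 n).2 with hdis | hdis
      · exact Set.disjoint_left.mp hdis (h'2 n hwn) hwU
      · exact Set.disjoint_left.mp hdis (h'2 n hzn) hzW

end final

end Pool.Agent.HLC742
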